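import Pool.Agent.J6H36.PF.Stm

/-!
# PF-RES: finitely generated domains have many finite residue fields

`jac_int` and `finite_of_ft` follow `Pool.Agent.H23R2.Lin` and `Pool.Agent.H173R3.ZT.Val` of the starting files.
-/

set_option autoImplicit false
set_option linter.style.haveILetI false

universe u

namespace Pool.Agent.J6H44.PF

theorem jac_int : IsJacobsonRing ℤ := by
  rw [isJacobsonRing_iff_prime_eq]
  intro P hP
  by_cases h : P = ⊥
  · subst h
    rw [eq_bot_iff]
    intro x hx
    rw [Ideal.mem_jacobson_bot] at hx
    have h1 := hx x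
    rw [Int.isUnit_iff] at h1
    rw [Ideal.mem_bot]
    rcases h1 with h1 | h1
    · have : x * x = 0 := by linarith
      exact mul_self_eq_zero.1 this
    · nlinarith [mul_self_nonneg x]
  · haveI : P.IsMaximal := hP.isMaximal h
    exact Ideal.jacobson_eq_self_of_isMaximal

/-- a field which is a finitely generated ring is finite -/
theorem finite_of_ft (F : Type u) [Field F] [Algebra.FiniteType ℤ F] : Finite F := by
  haveI := jac_int
  haveI : Module.Finite ℤ F := finite_of_finite_type_of_isJacobsonRing ℤ F
  obtain ⟨q, hq⟩ := CharP.exists F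
  have hq0 : q ≠ 0 := by
    rintro rfl
    have hc : CharZero F := CharP.charP_to_charZero _
    have hint : Algebra.IsIntegral ℤ F := inferInstance
    have hinj : Function.Injective (algebraMap ℤ F) := by
      intro a b h
      simpa using h
    exact Int.not_isField (isField_of_isIntegral_of_isField hinj (Field.toIsField _))
  have hqp : q.Prime := (CharP.char_is_prime_or_zero F q).resolve_right hq0
  haveI : Fact q.Prime := ⟨hqp⟩
  letI : Algebra (ZMod q) F := ZMod.algebra F q
  haveI : Module.Finite (ZMod q) F := Module.Finite.of_restrictScalars_finite ℤ (ZMod q) F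
  exact Module.finite_of_finite (ZMod q)

theorem t_RES : Pool.Agent.J6H36.PF.S_RES.{u} := by
  intro S _ _ _ s hs
  have hinj : Function.Injective (algebraMap S (Localization.Away s)) :=
    IsLocalization.injective (Localization.Away s) (powers_le_nonZeroDivisors_of_noZeroDivisors hs)
  haveI hnt : Nontrivial (Localization.Away s) := hinj.nontrivial
  obtain ⟨m, hm⟩ := Ideal.exists_maximal (Localization.Away s)
  haveI h0 : Algebra.FiniteType S (Localization.Away s) := inferInstance
  haveI h1 : Algebra.FiniteType ℤ (Localization.Away s) :=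
    Algebra.FiniteType.trans (S := S) inferInstance h0
  let g : @AlgHom ℤ (Localization.Away s) (Localization.Away s ⧸ m) _ _ _ _ (Ring.toIntAlgebra _) :=
    @AlgHom.mk ℤ (Localization.Away s) (Localization.Away s ⧸ m) _ _ _ _ (Ring.toIntAlgebra _)
      (Ideal.Quotient.mk m) (fun r => by
        show Ideal.Quotient.mk m (algebraMap ℤ (Localization.Away s) r) = _
        rw [eq_intCast (algebraMap ℤ (Localization.Away s)) r, map_intCast]
        exact (eq_intCast (@algebraMap ℤ (Localization.Away s ⧸ m) _ _ (Ring.toIntAlgebra _)) r).symm)
  have hsurj : Function.Surjective g := Ideal.Quotient.mk_surjective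
  have hft : @Algebra.FiniteType ℤ (Localization.Away s ⧸ m) _ _ (Ring.toIntAlgebra _) :=
    @Algebra.FiniteType.of_surjective ℤ (Localization.Away s) (Localization.Away s ⧸ m) _ _ _ _
      (Ring.toIntAlgebra _) _ g hsurj
  have hfin : Finite (Localization.Away s ⧸ m) := @finite_of_ft _ (Ideal.Quotient.field m) hft
  refine ⟨Localization.Away s ⧸ m, Ideal.Quotient.field m, hfin,
    (Ideal.Quotient.mk m).comp (algebraMap S (Localization.Away s)), ?_⟩
  have h1 : IsUnit (algebraMap S (Localization.Away s) s) :=
    IsLocalization.map_units (Localization.Away s) (⟨s, Submonoid.mem_powers s⟩ : Submonoid.powers s)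
  exact (h1.map (Ideal.Quotient.mk m)).ne_zero

end Pool.Agent.J6H44.PF
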